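import Pool.Agent.R299.WS.Vector

/-!
# MP_32446a_an, Q1: a compact weakly supercyclic operator which is not supercyclic

The operator is a bilateral weighted backward shift on `c₀(ℤ)` whose weights are symmetric and tend
to `0` very slowly.  It is compact and has dense range, so it satisfies the standing hypothesis (H)
with `S = T`.
-/

namespace Pool.Agent.Results.MP_32446a_an.CompactShift

open Pool.Agent.R299.WS
open scoped ZeroAtInfty

/-- hypothesis (H): a compact operator with dense range commutes with `T` -/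
def HypH (𝕂 : Type*) [RCLike 𝕂] {E : Type*} [NormedAddCommGroup E] [NormedSpace 𝕂 E]
    (T : E →L[𝕂] E) : Prop :=
  ∃ S : E →L[𝕂] E, IsCompactOperator S ∧ DenseRange S ∧ T.comp S = S.comp T

theorem result (𝕂 : Type*) [RCLike 𝕂] :
    ∃ T : C₀(ℤ, 𝕂) →L[𝕂] C₀(ℤ, 𝕂), IsCompactOperator T ∧ HypH 𝕂 T ∧
      WeaklySupercyclic 𝕂 T ∧ ¬ Supercyclic 𝕂 T := by
  obtain ⟨g, hg, hgt, hw⟩ := exists_weak 𝕂
  exact ⟨T 𝕂 g, T_compact hgt, ⟨T 𝕂 g, T_compact hgt, T_denseRange, rfl⟩, hw,
    T_not_supercyclic hg⟩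

end Pool.Agent.Results.MP_32446a_an.CompactShift
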